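import Pool.Agent.Helper16.MD.Stmts

/-!
ENX: the energies of Karatsuba.
-/

open Finset

namespace Pool.Agent.Helper16.MD

/-- the cofactor of `t i` in the product of all entries of `t` and `t'` -/
def enx_c {k : ℕ} (t t' : Fin k → ℕ) (i : Fin k) : ℕ :=
  (∏ j ∈ univ.erase i, t j) * ∏ j, t' j

theorem enx_c_mul {k : ℕ} (t t' : Fin k → ℕ) (i : Fin k) :
    enx_c t t' i * t i = (∏ j, t j) * ∏ j, t' j := by
  unfold enx_c
  rw [← Finset.prod_erase_mul univ t (mem_univ i)]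
  ring

theorem enx_c_le {k B : ℕ} (hk : 1 ≤ k) (t t' : Fin k → ℕ) (ht : ∀ j, t j ≤ B)
    (ht' : ∀ j, t' j ≤ B) (i : Fin k) : enx_c t t' i ≤ B ^ (2 * k - 1) := by
  unfold enx_c
  have h1 : ∏ j ∈ univ.erase i, t j ≤ B ^ ((univ : Finset (Fin k)).erase i).card :=
    Finset.prod_le_pow_card _ _ _ (fun j _ => ht j)
  have h2 : ∏ j, t' j ≤ B ^ (univ : Finset (Fin k)).card :=
    Finset.prod_le_pow_card _ _ _ (fun j _ => ht' j)
  rw [Finset.card_erase_of_mem (mem_univ i), Finset.card_univ, Fintype.card_fin] at h1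
  rw [Finset.card_univ, Fintype.card_fin] at h2
  calc _ ≤ B ^ (k - 1) * B ^ k := Nat.mul_le_mul h1 h2
    _ = B ^ (2 * k - 1) := by
      rw [← pow_add]
      congr 1
      omega

theorem enx_nat {i k d : ℕ} [NeZero d] {Q : Finset ℕ} (hQ : Pb d i Q) (hk : 1 ≤ k)
    (hd : k * 2 ^ ((i + 1) * (2 * k - 1)) < d) (t t' : Fin k → ℕ) (ht : ∀ j, t j ∈ Q)
    (ht' : ∀ j, t' j ∈ Q)
    (h : ∑ j, ((t j : ℕ) : ZMod d)⁻¹ = ∑ j, ((t' j : ℕ) : ZMod d)⁻¹) :
    ∑ j, enx_c t t' j = ∑ j, enx_c t' t j := by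
  have key : ∀ s s' : Fin k → ℕ, (∀ j, s j ∈ Q) →
      ((∑ j, enx_c s s' j : ℕ) : ZMod d) =
        (((∏ j, s j) * ∏ j, s' j : ℕ) : ZMod d) * ∑ j, ((s j : ℕ) : ZMod d)⁻¹ := by
    intro s s' hs
    rw [Nat.cast_sum, Finset.mul_sum]
    apply Finset.sum_congr rfl
    intro j _
    rw [← enx_c_mul s s' j, Nat.cast_mul, mul_assoc, ZMod.coe_mul_inv_eq_one, mul_one]
    exact (Nat.Prime.coprime_iff_not_dvd (hQ _ (hs j)).1).2 (hQ _ (hs j)).2.2.2
  have hb : ∀ s s' : Fin k → ℕ, (∀ j, s j ∈ Q) → (∀ j, s' j ∈ Q) →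
      ∑ j, enx_c s s' j < d := by
    intro s s' hs hs'
    refine lt_of_le_of_lt ?_ hd
    calc ∑ j, enx_c s s' j ≤ ∑ _j : Fin k, (2 ^ (i + 1)) ^ (2 * k - 1) :=
          Finset.sum_le_sum (fun j _ => enx_c_le hk s s' (fun j => (hQ _ (hs j)).2.2.1)
            (fun j => (hQ _ (hs' j)).2.2.1) j)
      _ = k * 2 ^ ((i + 1) * (2 * k - 1)) := by
          rw [Finset.sum_const, Finset.card_univ, Fintype.card_fin, smul_eq_mul, ← pow_mul]
  have e : ((∑ j, enx_c t t' j : ℕ) : ZMod d) = ((∑ j, enx_c t' t j : ℕ) : ZMod d) := by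
    rw [key t t' ht, key t' t ht', h, mul_comm (∏ j, t j)]
  rw [ZMod.natCast_eq_natCast_iff'] at e
  rwa [Nat.mod_eq_of_lt (hb t t' ht ht'), Nat.mod_eq_of_lt (hb t' t ht' ht)] at e

theorem enx_rat {k : ℕ} (t t' : Fin k → ℕ) (ht : ∀ j, t j ≠ 0) (ht' : ∀ j, t' j ≠ 0)
    (h : ∑ j, enx_c t t' j = ∑ j, enx_c t' t j) :
    ∑ j, (1 : ℚ) / t j = ∑ j, (1 : ℚ) / t' j := by
  have key : ∀ s s' : Fin k → ℕ, (∀ j, s j ≠ 0) →
      ((∑ j, enx_c s s' j : ℕ) : ℚ) =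
        (((∏ j, s j) * ∏ j, s' j : ℕ) : ℚ) * ∑ j, (1 : ℚ) / s j := by
    intro s s' hs
    rw [Nat.cast_sum, Finset.mul_sum]
    apply Finset.sum_congr rfl
    intro j _
    rw [← enx_c_mul s s' j, Nat.cast_mul]
    have h0 : ((s j : ℕ) : ℚ) ≠ 0 := Nat.cast_ne_zero.2 (hs j)
    rw [mul_assoc, mul_one_div_cancel h0, mul_one]
  have hA : (((∏ j, t j) * ∏ j, t' j : ℕ) : ℚ) ≠ 0 :=
    Nat.cast_ne_zero.2 (Nat.mul_ne_zero (prod_ne_zero_iff.2 (fun j _ => ht j))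
      (prod_ne_zero_iff.2 (fun j _ => ht' j)))
  apply mul_left_cancel₀ hA
  rw [← key t t' ht, h, key t' t ht', mul_comm (∏ j, t' j)]

theorem enx_mult {k p : ℕ} (hp : p.Prime) (hkp : k < p) (t t' : Fin k → ℕ)
    (ht : ∀ j, (t j).Prime) (ht' : ∀ j, (t' j).Prime)
    (h : ∑ j, (1 : ℚ) / t j = ∑ j, (1 : ℚ) / t' j) :
    (univ.filter fun j => t j = p).card = (univ.filter fun j => t' j = p).card := by
  obtain ⟨R, hR⟩ : ∃ R : ℕ, R = (∏ j ∈ univ.filter (fun j => ¬ t j = p), t j) *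
    ∏ j ∈ univ.filter (fun j => ¬ t' j = p), t' j := ⟨_, rfl⟩
  have hdv : ∀ s : Fin k → ℕ, (∀ j, (s j).Prime) →
      ¬ p ∣ ∏ j ∈ univ.filter (fun j => ¬ s j = p), s j := by
    intro s hs hc
    rw [Prime.dvd_finsetProd_iff hp.prime] at hc
    obtain ⟨j, hj, hj2⟩ := hc
    exact (mem_filter.1 hj).2 ((Nat.prime_dvd_prime_iff_eq hp (hs j)).1 hj2).symm
  have hRp : ¬ p ∣ R := by
    rw [hR, hp.dvd_mul]
    rintro (h1 | h1)
    · exact hdv t ht h1
    · exact hdv t' ht' h1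
  have key : ∀ s : Fin k → ℕ, (∀ j, (s j).Prime) → (∀ j, ¬ s j = p → s j ∣ R) →
      ∃ z : ℤ, (R : ℚ) * ∑ j, (1 : ℚ) / s j =
        ((univ.filter fun j => s j = p).card : ℚ) * (R * (1 / p)) + z := by
    intro s hs hd
    refine ⟨∑ j ∈ univ.filter (fun j => ¬ s j = p), ((R / s j : ℕ) : ℤ), ?_⟩
    rw [Finset.mul_sum, ← Finset.sum_filter_add_sum_filter_not univ (fun j => s j = p)]
    congr 1
    · have e : ∀ j ∈ univ.filter (fun j => s j = p), (R : ℚ) * (1 / s j) = R * (1 / p) := by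
        intro j hj
        rw [(mem_filter.1 hj).2]
      rw [Finset.sum_congr rfl e, Finset.sum_const, nsmul_eq_mul]
    · rw [Int.cast_sum]
      apply Finset.sum_congr rfl
      intro j hj
      rw [Int.cast_natCast, Nat.cast_div (hd j (mem_filter.1 hj).2)
        (Nat.cast_ne_zero.2 (hs j).ne_zero)]
      ring
  obtain ⟨z, hz⟩ := key t ht (fun j hj => by
    rw [hR]
    exact Dvd.dvd.mul_right (Finset.dvd_prod_of_mem t (mem_filter.2 ⟨mem_univ j, hj⟩)) _)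
  obtain ⟨z', hz'⟩ := key t' ht' (fun j hj => by
    rw [hR]
    exact Dvd.dvd.mul_left (Finset.dvd_prod_of_mem t' (mem_filter.2 ⟨mem_univ j, hj⟩)) _)
  rw [h, hz'] at hz
  obtain ⟨m, hm⟩ : ∃ m : ℕ, m = (univ.filter fun j => t j = p).card := ⟨_, rfl⟩
  obtain ⟨m', hm'⟩ : ∃ m : ℕ, m = (univ.filter fun j => t' j = p).card := ⟨_, rfl⟩
  have hmk : m ≤ k := by
    rw [hm]
    exact (card_filter_le _ _).trans (by rw [Finset.card_univ, Fintype.card_fin])
  have hmk' : m' ≤ k := by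
    rw [hm']
    exact (card_filter_le _ _).trans (by rw [Finset.card_univ, Fintype.card_fin])
  rw [← hm, ← hm'] at hz ⊢
  have hp0 : (p : ℚ) ≠ 0 := Nat.cast_ne_zero.2 hp.ne_zero
  have hq : ((m : ℚ) - m') * R = p * ((z' : ℚ) - z) := by
    have h1 : ((m : ℚ) - m') * (R * (1 / p)) = (z' : ℚ) - z := by linarith
    rw [← h1]
    field_simp
  have hi : ((m : ℤ) - m') * R = p * (z' - z) := by exact_mod_cast hq
  have hdvd : (p : ℤ) ∣ (m : ℤ) - m' := by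
    have h2 : (p : ℤ) ∣ ((m : ℤ) - m') * R := ⟨_, hi⟩
    rcases (Nat.prime_iff_prime_int.1 hp).dvd_or_dvd h2 with h3 | h3
    · exact h3
    · exact absurd (Int.natCast_dvd_natCast.1 h3) hRp
  have habs : |(m : ℤ) - m'| < p := by
    rw [abs_lt]
    constructor <;> omega
  have h0 := Int.eq_zero_of_abs_lt_dvd hdvd habs
  omega

theorem enx_perm {k : ℕ} (t t' : Fin k → ℕ)
    (h : ∀ p, (univ.filter fun j => t j = p).card = (univ.filter fun j => t' j = p).card) :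
    ∃ σ : Equiv.Perm (Fin k), t' = t ∘ σ := by
  have e : ∀ p, Nonempty ({j // t' j = p} ≃ {j // t j = p}) := by
    intro p
    refine ⟨Fintype.equivOfCardEq ?_⟩
    rw [Fintype.card_subtype, Fintype.card_subtype, h p]
  refine ⟨Equiv.ofFiberEquiv (fun p => Classical.choice (e p)), ?_⟩
  funext j
  exact (Equiv.ofFiberEquiv_map _ j).symm

theorem st_ENX : ST_ENX := by
  intro i k d _ Q hQ hk hki hd
  unfold JK JJ
  have hsub : (((Fintype.piFinset fun _ : Fin k => Q) ×ˢ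
      (Fintype.piFinset fun _ : Fin k => Q)).filter fun u =>
        ∑ j, ((u.1 j : ℕ) : ZMod d)⁻¹ = ∑ j, ((u.2 j : ℕ) : ZMod d)⁻¹) ⊆
      (((Fintype.piFinset fun _ : Fin k => Q) ×ˢ
        (univ : Finset (Equiv.Perm (Fin k)))).image fun u => (u.1, u.1 ∘ u.2)) := by
    rintro ⟨t, t'⟩ hu
    rw [mem_filter, mem_product, Fintype.mem_piFinset, Fintype.mem_piFinset] at hu
    obtain ⟨⟨ht, ht'⟩, h⟩ := hu
    change ∀ a, t a ∈ Q at ht
    change ∀ a, t' a ∈ Q at ht'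
    change ∑ j, ((t j : ℕ) : ZMod d)⁻¹ = ∑ j, ((t' j : ℕ) : ZMod d)⁻¹ at h
    have h1 := enx_nat hQ hk hd t t' ht ht' h
    have h2 := enx_rat t t' (fun j => (hQ _ (ht j)).1.ne_zero)
      (fun j => (hQ _ (ht' j)).1.ne_zero) h1
    have h3 : ∀ p, (univ.filter fun j => t j = p).card =
        (univ.filter fun j => t' j = p).card := by
      intro p
      by_cases hpQ : p ∈ Q
      · exact enx_mult (hQ p hpQ).1 (hki.trans (hQ p hpQ).2.1) t t'
          (fun j => (hQ _ (ht j)).1) (fun j => (hQ _ (ht' j)).1) h2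
      · have e1 : (univ.filter fun j => t j = p) = ∅ :=
          Finset.filter_eq_empty_iff.2 (fun {j} _ (hj : t j = p) => hpQ (hj ▸ ht j))
        have e2 : (univ.filter fun j => t' j = p) = ∅ :=
          Finset.filter_eq_empty_iff.2 (fun {j} _ (hj : t' j = p) => hpQ (hj ▸ ht' j))
        rw [e1, e2]
    obtain ⟨σ, hσ⟩ := enx_perm t t' h3
    rw [mem_image]
    refine ⟨(t, σ), ?_, ?_⟩
    · rw [mem_product, Fintype.mem_piFinset]
      exact ⟨ht, mem_univ _⟩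
    · change (t, t ∘ σ) = (t, t')
      rw [hσ]
  calc _ ≤ _ := card_le_card hsub
    _ ≤ _ := card_image_le
    _ = _ := by
      rw [card_product, Fintype.card_piFinset_const, Finset.card_univ, Fintype.card_perm,
        Fintype.card_fin, mul_comm]

end Pool.Agent.Helper16.MD
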