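import Pool.Agent.Helper16.MD.Stmts

/-!
RIC: few triples give a small numerator.
-/

open Finset

namespace Pool.Agent.Helper16.MD

theorem ric_inv_mul {d : ℕ} {a b : ZMod d} (ha : IsUnit a) (hb : IsUnit b) :
    (a * b)⁻¹ = a⁻¹ * b⁻¹ := by
  have h1 : (a * b) * (a * b)⁻¹ = 1 := ZMod.mul_inv_of_unit _ (ha.mul hb)
  have h2 : a * a⁻¹ = 1 := ZMod.mul_inv_of_unit _ ha
  have h3 : b * b⁻¹ = 1 := ZMod.mul_inv_of_unit _ hb
  calc (a * b)⁻¹ = (a * a⁻¹) * (b * b⁻¹) * (a * b)⁻¹ := by rw [h2, h3, one_mul, one_mul]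
    _ = a⁻¹ * b⁻¹ * ((a * b) * (a * b)⁻¹) := by ring
    _ = _ := by rw [h1, mul_one]

theorem ric_mem {D i p : ℕ} (hp : p ∈ PB D i) :
    p.Prime ∧ 2 ^ i < p ∧ p ≤ 2 ^ (i + 1) ∧ ¬ p ∣ D := by
  unfold PB at hp
  rw [mem_filter, mem_Ioc] at hp
  exact ⟨hp.2.1, hp.1.1, hp.1.2, hp.2.2⟩

theorem ric_cop {D i p : ℕ} (hp : p ∈ PB D i) : p.Coprime D :=
  (Nat.Prime.coprime_iff_not_dvd (ric_mem hp).1).2 (ric_mem hp).2.2.2

theorem ric_Pr {D d i : ℕ} (hd : d ∣ D) (h : Rich D i) : Pr d i (PB D i) := by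
  refine ⟨fun p hp => ?_, h⟩
  obtain ⟨h1, h2, h3, h4⟩ := ric_mem hp
  exact ⟨h1, h2, h3, fun h5 => h4 (h5.trans hd)⟩

theorem ric_unit {D P : ℕ} (h : P.Coprime D) : IsUnit (P : ZMod D) :=
  (ZMod.isUnit_iff_coprime P D).2 h

theorem ric_pr {D i j k : ℕ} {s : ℕ × ℕ × ℕ} (hs : s ∈ Bk D i j k) : (pr s).Coprime D := by
  unfold Bk at hs
  rw [mem_product, mem_product] at hs
  exact Nat.Coprime.mul_left (ric_cop hs.1) (Nat.Coprime.mul_left (ric_cop hs.2.1)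
    (ric_cop hs.2.2))

theorem ric_sum {D : ℕ} [NeZero D] (i j k : ℕ) (Z : ZMod D) (m : ℕ) (d : ℕ) [NeZero d]
    (b : ZMod d) (hdD : d ∣ D) (hP : ∀ P : ℕ, P.Coprime D →
      ed ((P : ZMod D)⁻¹ * ((m : ZMod D) * Z)) = ed ((P : ZMod d)⁻¹ * b)) :
    ∑ s ∈ Bk D i j k, ed ((m : ZMod D) * (((pr s : ℕ) : ZMod D)⁻¹ * Z)) =
      S3 b (PB D i) (PB D j) (PB D k) := by
  unfold Bk S3
  rw [sum_product]
  refine sum_congr rfl fun p hp => ?_
  rw [sum_product]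
  refine sum_congr rfl fun q hq => ?_
  refine sum_congr rfl fun r hr => ?_
  have hcp : (pr (p, q, r)).Coprime D := Nat.Coprime.mul_left (ric_cop hp)
    (Nat.Coprime.mul_left (ric_cop hq) (ric_cop hr))
  have hp' : IsUnit (p : ZMod d) := ric_unit (Nat.Coprime.coprime_dvd_right hdD (ric_cop hp))
  have hq' : IsUnit (q : ZMod d) := ric_unit (Nat.Coprime.coprime_dvd_right hdD (ric_cop hq))
  have hr' : IsUnit (r : ZMod d) := ric_unit (Nat.Coprime.coprime_dvd_right hdD (ric_cop hr))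
  have e1 : (m : ZMod D) * (((pr (p, q, r) : ℕ) : ZMod D)⁻¹ * Z) =
      ((pr (p, q, r) : ℕ) : ZMod D)⁻¹ * ((m : ZMod D) * Z) := by ring
  have e2 : ((pr (p, q, r) : ℕ) : ZMod d)⁻¹ * b =
      b * (p : ZMod d)⁻¹ * (q : ZMod d)⁻¹ * (r : ZMod d)⁻¹ := by
    unfold pr
    rw [Nat.cast_mul, Nat.cast_mul, ric_inv_mul hp' (hq'.mul hr'), ric_inv_mul hq' hr']
    ring
  rw [e1, hP _ hcp, e2]

/-- the lower bound for the denominators -/
theorem ric_low {D : ℕ} [NeZero D] {Z X u : ZMod D} {d m L : ℕ} (hu : IsUnit u)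
    (hX : X = u⁻¹ * Z) (hZ : Z ≠ 0) (hd : 1 ≤ d) (hm : 1 ≤ m)
    (hdg : d * Nat.gcd D (((m : ZMod D) * Z).val) = D) (hL : |X.valMinAbs| ≤ (L : ℤ)) :
    D ≤ d * m * L := by
  have hu1 : u * u⁻¹ = 1 := ZMod.mul_inv_of_unit _ hu
  have hX0 : X ≠ 0 := by
    intro h0
    apply hZ
    calc Z = (u * u⁻¹) * Z := by rw [hu1, one_mul]
      _ = u * (u⁻¹ * Z) := by ring
      _ = 0 := by rw [← hX, h0, mul_zero]
  have h1 : (d : ZMod D) * ((m : ZMod D) * Z) = 0 := by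
    obtain ⟨w, hw⟩ : Nat.gcd D (((m : ZMod D) * Z).val) ∣ ((m : ZMod D) * Z).val :=
      Nat.gcd_dvd_right _ _
    rw [← ZMod.natCast_zmod_val ((m : ZMod D) * Z), ← Nat.cast_mul,
      ZMod.natCast_eq_zero_iff]
    refine ⟨w, ?_⟩
    calc d * ((m : ZMod D) * Z).val = d * (Nat.gcd D (((m : ZMod D) * Z).val) * w) := by
          rw [← hw]
      _ = (d * Nat.gcd D (((m : ZMod D) * Z).val)) * w := by ring
      _ = D * w := by rw [hdg]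
  have h2 : (d : ZMod D) * (m : ZMod D) * X = 0 := by
    rw [hX]
    calc (d : ZMod D) * (m : ZMod D) * (u⁻¹ * Z) = u⁻¹ * ((d : ZMod D) * ((m : ZMod D) * Z)) := by
          ring
      _ = 0 := by rw [h1, mul_zero]
  have h3 : ((((d : ℤ) * m * X.valMinAbs : ℤ)) : ZMod D) = 0 := by
    rw [Int.cast_mul, Int.cast_mul, ZMod.coe_valMinAbs, Int.cast_natCast, Int.cast_natCast, h2]
  have h4 : (D : ℤ) ∣ (d : ℤ) * m * X.valMinAbs := (ZMod.intCast_zmod_eq_zero_iff_dvd _ _).1 h3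
  have hv : X.valMinAbs ≠ 0 := fun h => hX0 ((ZMod.valMinAbs_eq_zero X).1 h)
  have h5 : (d : ℤ) * m * X.valMinAbs ≠ 0 :=
    mul_ne_zero (mul_ne_zero (by omega) (by omega)) hv
  have h6 : (D : ℤ) ≤ |(d : ℤ) * m * X.valMinAbs| :=
    Int.le_of_dvd (abs_pos.2 h5) ((dvd_abs _ _).2 h4)
  have h7 : |(d : ℤ) * m * X.valMinAbs| ≤ (d : ℤ) * m * L := by
    rw [abs_mul, abs_of_nonneg (by positivity : (0 : ℤ) ≤ (d : ℤ) * m)]
    exact mul_le_mul_of_nonneg_left hL (by positivity)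
  exact_mod_cast h6.trans h7

theorem st_RIC (hEST : ST_EST) (hFEJ : ST_FEJ) (hRED : ST_RED) : ST_RIC := by
  intro ρ K T hρ hT
  obtain ⟨M, hM⟩ : ∃ M : ℕ, M = ⌈6 / ρ⌉₊ := ⟨_, rfl⟩
  have hM6 : 6 / ρ ≤ (M : ℝ) := by
    rw [hM]
    exact Nat.le_ceil _
  have hM0 : (0 : ℝ) < M := lt_of_lt_of_le (by positivity) hM6
  have hM1 : 1 ≤ M := by exact_mod_cast hM0
  obtain ⟨D₂, I₀, hE⟩ := hEST (ρ / 6) K (by positivity)
  refine ⟨max 1 (max (2 * M * T) (T * M * (D₂ + 1))), I₀, le_max_left _ _, ?_⟩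
  intro n Λ i j k hn hΛ hi hj hpar Z hZ
  obtain ⟨hp1, hp2, hp3, hp4, hp5, hr1, hr2, hr3⟩ := hpar
  have hn1 : 1 ≤ n := (le_max_left _ _).trans hn
  have hn2 : 2 * M * T ≤ n := ((le_max_left _ _).trans (le_max_right _ _)).trans hn
  have hn3 : T * M * (D₂ + 1) ≤ n := ((le_max_right _ _).trans (le_max_right _ _)).trans hn
  have hD1 : 0 < n * Λ := Nat.mul_pos hn1 hΛ
  have hD0 : NeZero (n * Λ) := ⟨hD1.ne'⟩
  by_cases hex : ∃ s ∈ Bk (n * Λ) i j k,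
      |((pr s : ZMod (n * Λ))⁻¹ * Z).valMinAbs| ≤ ((T * Λ : ℕ) : ℤ)
  swap
  · have he : (Bk (n * Λ) i j k).filter (fun s =>
        |((pr s : ZMod (n * Λ))⁻¹ * Z).valMinAbs| ≤ ((T * Λ : ℕ) : ℤ)) = ∅ :=
      Finset.filter_eq_empty_iff.2 (fun {s} hs h => hex ⟨s, hs, h⟩)
    rw [he, Finset.card_empty, Nat.cast_zero]
    positivity
  obtain ⟨s, hs, hslow⟩ := hex
  have hcard : (((Bk (n * Λ) i j k).card : ℕ) : ℝ) =
      ((PB (n * Λ) i).card : ℝ) * (((PB (n * Λ) j).card : ℝ) * ((PB (n * Λ) k).card : ℝ)) := by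
    unfold Bk
    rw [card_product, card_product, Nat.cast_mul, Nat.cast_mul]
  have hmain := hFEJ (ℕ × ℕ × ℕ) (n * Λ) M (Bk (n * Λ) i j k)
    (fun s => (pr s : ZMod (n * Λ))⁻¹ * Z) (ρ / 6) hM1 (by positivity) (by
    intro m hm1 hmM
    obtain ⟨d, hd0, b, hdD, hb, hdg, hP⟩ := hRED (n * Λ) ((m : ZMod (n * Λ)) * Z)
    have hd1 : 1 ≤ d := Nat.one_le_iff_ne_zero.2 hd0.ne
    have hlow := ric_low (ric_unit (ric_pr hs)) rfl hZ hd1 hm1 hdg hslow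
    have hnd : n ≤ d * m * T := by
      have h1 : n * Λ ≤ (d * m * T) * Λ := by
        calc n * Λ ≤ d * m * (T * Λ) := hlow
          _ = _ := by ring
      exact Nat.le_of_mul_le_mul_right h1 hΛ
    have hD2 : D₂ ≤ d := by
      by_contra hc
      push Not at hc
      have h1 : d * m * T ≤ d * M * T :=
        Nat.mul_le_mul_right _ (Nat.mul_le_mul_left _ hmM.le)
      have h2 : d * M * T ≤ D₂ * M * T :=
        Nat.mul_le_mul_right _ (Nat.mul_le_mul_right _ hc.le)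
      have h3 : T * M * (D₂ + 1) = D₂ * M * T + T * M := by ring
      have h4 : 0 < T * M := Nat.mul_pos hT hM1
      omega
    have hdle : d ≤ n * Λ := Nat.le_of_dvd hD1 hdD
    rw [ric_sum i j k Z m d b hdD hP, hcard]
    have hfin := hE i j k d (PB (n * Λ) i) (PB (n * Λ) j) (PB (n * Λ) k) b hi hj hp1 hp2 hp3
      hD2 (hdle.trans hp4) (hdle.trans hp5) hb (ric_Pr hdD hr1) (ric_Pr hdD hr2)
      (ric_Pr hdD hr3)
    calc _ ≤ _ := hfin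
      _ = _ := by ring)
  have hsub : (Bk (n * Λ) i j k).filter (fun s =>
        |((pr s : ZMod (n * Λ))⁻¹ * Z).valMinAbs| ≤ ((T * Λ : ℕ) : ℤ)) ⊆
      (Bk (n * Λ) i j k).filter (fun s =>
        2 * (M : ℤ) * |((pr s : ZMod (n * Λ))⁻¹ * Z).valMinAbs| ≤ ((n * Λ : ℕ) : ℤ)) := by
    intro s hs
    rw [mem_filter] at hs ⊢
    refine ⟨hs.1, ?_⟩
    calc 2 * (M : ℤ) * |((pr s : ZMod (n * Λ))⁻¹ * Z).valMinAbs|
        ≤ 2 * (M : ℤ) * ((T * Λ : ℕ) : ℤ) :=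
          mul_le_mul_of_nonneg_left hs.2 (by positivity)
      _ = ((2 * M * T * Λ : ℕ) : ℤ) := by push_cast; ring
      _ ≤ ((n * Λ : ℕ) : ℤ) := by exact_mod_cast Nat.mul_le_mul_right Λ hn2
  have hle : (((Bk (n * Λ) i j k).filter fun s =>
    |((pr s : ZMod (n * Λ))⁻¹ * Z).valMinAbs| ≤ ((T * Λ : ℕ) : ℤ)).card : ℝ) ≤
      3 * (1 / M + ρ / 6) * (Bk (n * Λ) i j k).card :=
    le_trans (by exact_mod_cast card_le_card hsub) hmain
  refine hle.trans (mul_le_mul_of_nonneg_right ?_ (Nat.cast_nonneg _))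
  have h1 : 1 / (M : ℝ) ≤ ρ / 6 := by
    rw [div_le_div_iff₀ hM0 (by norm_num : (0 : ℝ) < 6)]
    rw [div_le_iff₀ hρ] at hM6
    linarith
  linarith

end Pool.Agent.Helper16.MD
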